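import Mathlib
import Pool.Agent.H718R2.G0
import Pool.Agent.H922R3.CL.DefsB

/-!
# Periodic embedded tori with tower dynamics: definitions
-/

set_option autoImplicit false

open scoped Manifold ContDiff Topology
open Filter Set

universe u

namespace Pool.Agent.V11260.PT

open Pool.Agent.H718R2.G

/-- `ψ` is a smooth action of the group `ℝ` on the open subset `O` of the manifold `N`, that is, the
flow of a smooth vector field of `O` whose integral curves are defined for all times. -/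
structure IsFlow (n : ℕ) (N : Type u) [TopologicalSpace N] [ChartedSpace (V n) N] (O : Set N)
    (ψ : ℝ → N → N) : Prop where
  isOpen : IsOpen O
  maps : ∀ t, ∀ y ∈ O, ψ t y ∈ O
  smooth : ContMDiffOn (𝓘(ℝ, ℝ).prod (𝓡 n)) (𝓡 n) ∞ (fun q : ℝ × N => ψ q.1 q.2) (univ ×ˢ O)
  zero : ∀ y ∈ O, ψ 0 y = y
  add : ∀ s t, ∀ y ∈ O, ψ (s + t) y = ψ s (ψ t y)

/-- `τ` is a parametrisation of the torus `C = τ(W) ⊆ N` by `W / Λ`, such that every constant vector
field `w` of `W / Λ` becomes the restriction to `C` of a smooth vector field on a neighbourhood of `C`,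
with a complete flow. (This is the case for the lift `τ` to `W` of any smooth embedding of the torus
`W / Λ` in `N`.) -/
structure IsTorus (n : ℕ) (N : Type u) [TopologicalSpace N] [ChartedSpace (V n) N]
    {W : Type*} [NormedAddCommGroup W] [NormedSpace ℝ W] (Λ : AddSubgroup W) (τ : W → N) : Prop where
  cont : Continuous τ
  per : ∀ v, ∀ u ∈ Λ, τ (v + u) = τ v
  flow : ∀ w : W, ∃ (O : Set N) (ψ : ℝ → N → N), IsFlow n N O ψ ∧ (∀ v, τ v ∈ O) ∧
    ∀ t v, ψ t (τ v) = τ (v + t • w)

/-- The set `C = τ(W)` has the period `p ≥ 1` under `F` (`F^i(C)` does not meet `C` for `1 ≤ i < p`), and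
the return map `F^p` of `C` has the lift `Φ`. -/
structure IsReturn {N W : Type*} (F : N → N) (τ : W → N) (p : ℕ) (Φ : W → W) : Prop where
  pos : 1 ≤ p
  ret : ∀ v, F^[p] (τ v) = τ (Φ v)
  dis : ∀ i, 1 ≤ i → i < p → ∀ v w, F^[i] (τ v) ≠ τ w

/-- `y` lies on a torus which is periodic for `F`, the return map of which is a tower over a mixed
base, and `y` is nonwandering for this return map. -/
def OnMixedTorus (n : ℕ) (N : Type u) [TopologicalSpace N] [ChartedSpace (V n) N] (F : N → N)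
    (y : N) : Prop :=
  ∃ (d l s e m : ℕ) (H : Pool.Agent.H922R3.CL.V d l s → Pool.Agent.H922R3.CL.V d l s)
    (Φ : Pool.Agent.H922R3.CL.VM d l s e m ≃ Pool.Agent.H922R3.CL.VM d l s e m)
    (τ : Pool.Agent.H922R3.CL.VM d l s e m → N) (p : ℕ) (v : Pool.Agent.H922R3.CL.VM d l s e m),
    Pool.Agent.H922R3.CL.IsMixedBase H ∧ Pool.Agent.H922R3.CL.MixTower 0 H Φ ∧
    Pool.Agent.H922R3.CL.MixNonwand Φ v ∧ IsTorus n N (Pool.Agent.H922R3.CL.ZM d l s e m) τ ∧
    IsReturn F τ p Φ ∧ τ v = y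

/-- `y` lies on a torus which is periodic for `F`, the return map of which is a tower over a map `H` of
a torus which is conjugate to a hyperbolic automorphism or has the periodic shadowing property, and `y`
is chain recurrent for this return map. -/
def OnShadowTorus (n : ℕ) (N : Type u) [TopologicalSpace N] [ChartedSpace (V n) N] (F : N → N)
    (y : N) : Prop :=
  ∃ (d e m : ℕ) (H : (Fin d → ℝ) → (Fin d → ℝ))
    (Φ : Pool.Agent.H922R3.CL.V d e m ≃ Pool.Agent.H922R3.CL.V d e m)
    (τ : Pool.Agent.H922R3.CL.V d e m → N) (p : ℕ) (v : Pool.Agent.H922R3.CL.V d e m),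
    (Pool.Agent.H922R3.CL.ConjHyp (Pool.Agent.H922R3.CL.Zn d) H ∨
      Pool.Agent.H922R3.CL.PerShadow (Pool.Agent.H922R3.CL.Zn d) H) ∧
    Pool.Agent.H922R3.CL.IsTower 0 H Φ ∧
    Pool.Agent.H922R3.CL.IsChainRec (Pool.Agent.H922R3.CL.ZV d e m) Φ v ∧
    IsTorus n N (Pool.Agent.H922R3.CL.ZV d e m) τ ∧ IsReturn F τ p Φ ∧ τ v = y

end Pool.Agent.V11260.PT
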