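import Mathlib
import Pool.Agent.V11260.PT.Defs
import Pool.Agent.TH382.HS.Fam
import Pool.Agent.TH382.HS.Limit

/-!
# Perturbations near periodic embedded tori
-/

set_option autoImplicit false
set_option linter.unusedSectionVars false

open scoped Manifold ContDiff Topology NNReal
open Filter Set Metric

universe u

namespace Pool.Agent.V11260.PT

open Pool.Agent.H718R2.G Pool.Agent.W564.SC Pool.Agent.TH382.QC Pool.Agent.TH80.CLX
  Pool.Agent.TH382.HS

variable {n : ℕ} {N : Type u} [TopologicalSpace N] [T2Space N] [CompactSpace N]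
  [ChartedSpace (V n) N] [IsManifold (𝓡 n) ∞ N] {r : ℕ∞}

/-- A cut-off flow: equal to the flow on the compact set `C`, the identity on the closed set `D`. -/
theorem one_flow {O : Set N} {ψ : ℝ → N → N} (hψ : IsFlow n N O ψ) {C D : Set N} (hC : IsCompact C)
    (hCO : C ⊆ O) (hD : IsClosed D) (hdis : Disjoint D C) :
    ∃ (P : ℝ → DiffM n N r) (ε : ℝ), 0 < ε ∧
      (∀ s : ℕ → ℝ, Tendsto s atTop (𝓝 0) → Cv (fun k => P (s k)) (Diffeomorph.refl (𝓡 n) N r)) ∧
      ∀ t, |t| < ε → (∀ y ∈ C, P t y = ψ t y) ∧ ∀ y ∈ D, P t y = y := by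
  classical
  obtain ⟨O₁, hO₁, hCO₁, hO₁O, hO₁c⟩ := exists_open_between_and_isCompact_closure hC hψ.isOpen hCO
  have hD' : IsClosed (D ∪ O₁ᶜ) := hD.union hO₁.isClosed_compl
  have hdisj : Disjoint (D ∪ O₁ᶜ) C := by
    rw [Set.disjoint_union_left]
    exact ⟨hdis, Set.disjoint_left.2 fun w hw hwC => hw (hCO₁ hwC)⟩
  obtain ⟨f, hf0, hf1, -⟩ := exists_contMDiffMap_zero_one_of_isClosed (n := ⊤) (𝓡 n) hD'
    hC.isClosed hdisj
  have hρ : ContMDiff (𝓡 n) 𝓘(ℝ, ℝ) ∞ (f : N → ℝ) := f.contMDiff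
  have hρ0 : ∀ w ∈ O, w ∉ closure O₁ → f w = 0 := by
    intro w _ hwK
    exact hf0 (Or.inr fun h1 => hwK (subset_closure h1))
  have hA : LAct 1 n N O (fun t w => ψ (t 0) w) :=
    { isOpen := hψ.isOpen
      maps := fun t w hw => hψ.maps _ w hw
      smooth := by
        have h1 : ContMDiff ((𝓡 1).prod (𝓡 n)) (𝓘(ℝ, ℝ).prod (𝓡 n)) ∞
            (fun p : V 1 × N => ((p.1 0, p.2) : ℝ × N)) := by
          refine ContMDiff.prodMk ?_ contMDiff_snd
          have h2 : ContDiff ℝ ∞ (fun t : V 1 => t 0) :=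
            (EuclideanSpace.proj (𝕜 := ℝ) (0 : Fin 1)).contDiff
          exact h2.contMDiff.comp contMDiff_fst
        exact hψ.smooth.comp (f := fun p : V 1 × N => ((p.1 0, p.2) : ℝ × N)) h1.contMDiffOn
          (fun p hp => ⟨mem_univ _, hp.2⟩)
      zero := fun w hw => hψ.zero w hw
      add := fun t t' w hw => hψ.add _ _ w hw }
  obtain ⟨H, ε, hε, hH0, hfam, hH⟩ := lact_fam' hA hρ (closure O₁) hO₁c isClosed_closure hO₁O hρ0 r
    (Diffeomorph.refl (𝓡 n) N r)
  have hnorm : ∀ t : ℝ, ‖(EuclideanSpace.single 0 t : V 1)‖ = |t| := fun t => by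
    rw [PiLp.norm_single, Real.norm_eq_abs]
  refine ⟨fun t => H (EuclideanSpace.single 0 t), ε, hε, ?_, ?_⟩
  · intro s hs
    have h1 : Tendsto (fun k => (EuclideanSpace.single 0 (s k) : V 1)) atTop (𝓝 0) := by
      rw [tendsto_zero_iff_norm_tendsto_zero]
      have h2 := hs.abs
      rw [abs_zero] at h2
      exact h2.congr fun k => (hnorm _).symm
    have h2 := Cv.fam Pool.Agent.W917.SC.comp hfam h1
    rwa [hH0] at h2
  · intro t ht
    have h1 := hH (EuclideanSpace.single 0 t) (by rw [hnorm]; exact ht)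
    refine ⟨fun y hy => ?_, fun y hy => ?_⟩
    · show H (EuclideanSpace.single 0 t) y = _
      rw [h1, if_pos (hCO hy), hf1 hy]
      simp
    · show H (EuclideanSpace.single 0 t) y = _
      have h2 : f y = 0 := hf0 (Or.inl hy)
      rw [h1, h2]
      by_cases hO : y ∈ O
      · rw [if_pos hO, zero_smul]
        exact hψ.zero y hO
      · rw [if_neg hO]
        rfl

variable {W : Type} [NormedAddCommGroup W] [NormedSpace ℝ W] {Λ : AddSubgroup W} {τ : W → N}

/-- Translations of the torus along the vectors of a list. -/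
theorem multi (hτ : IsTorus n N Λ τ) (hc : IsCompact (range τ)) {D : Set N} (hD : IsClosed D)
    (hdis : Disjoint D (range τ)) {ι : Type*} (b : ι → W) (L : List ι) :
    ∃ (P : (ι → ℝ) → DiffM n N r) (ε : ℝ), 0 < ε ∧
      (∀ s : ℕ → ι → ℝ, (∀ i, Tendsto (fun k => s k i) atTop (𝓝 0)) →
        Cv (fun k => P (s k)) (Diffeomorph.refl (𝓡 n) N r)) ∧
      ∀ t, (∀ i, |t i| < ε) → (∀ v, P t (τ v) = τ (v + (L.map fun i => t i • b i).sum)) ∧
        ∀ y ∈ D, P t y = y := by
  induction L with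
  | nil =>
    refine ⟨fun _ => Diffeomorph.refl (𝓡 n) N r, 1, one_pos, fun s _ => Cv.const _, ?_⟩
    intro t _
    refine ⟨fun v => ?_, fun y _ => rfl⟩
    rw [List.map_nil, List.sum_nil, add_zero]
    rfl
  | cons i L ih =>
    obtain ⟨P, ε, hε, hP1, hP2⟩ := ih
    obtain ⟨O, ψ, hψ, hO, hψτ⟩ := hτ.flow (b i)
    obtain ⟨Q, δ, hδ, hQ1, hQ2⟩ := one_flow (r := r) hψ hc (by rintro _ ⟨v, rfl⟩; exact hO v) hD hdis
    refine ⟨fun t => (Q (t i)).trans (P t), min ε δ, lt_min hε hδ, ?_, ?_⟩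
    · intro s hs
      have h1 := Cv.trans Pool.Agent.W917.SC.comp (hQ1 _ (hs i)) (hP1 s hs)
      have e0 : (Diffeomorph.refl (𝓡 n) N r).trans (Diffeomorph.refl (𝓡 n) N r) =
          Diffeomorph.refl (𝓡 n) N r := by
        ext y
        rfl
      rwa [e0] at h1
    · intro t ht
      obtain ⟨p1, p2⟩ := hP2 t fun i => (ht i).trans_le (min_le_left _ _)
      obtain ⟨q1, q2⟩ := hQ2 (t i) ((ht i).trans_le (min_le_right _ _))
      refine ⟨fun v => ?_, fun y hy => ?_⟩
      · show P t (Q (t i) (τ v)) = _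
        rw [q1 _ ⟨v, rfl⟩, hψτ, p1, List.map_cons, List.sum_cons, add_assoc]
      · show P t (Q (t i) y) = y
        rw [q2 y hy, p2 y hy]

/-- Small translations of the torus. -/
theorem transl [FiniteDimensional ℝ W] (hτ : IsTorus n N Λ τ) (hc : IsCompact (range τ)) {D : Set N}
    (hD : IsClosed D) (hdis : Disjoint D (range τ)) (t : ℕ → W) (ht : Tendsto t atTop (𝓝 0)) :
    ∃ P : ℕ → DiffM n N r, Cv P (Diffeomorph.refl (𝓡 n) N r) ∧
      ∀ᶠ k in atTop, (∀ v, P k (τ v) = τ (v + t k)) ∧ ∀ y ∈ D, P k y = y := by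
  set b := Module.finBasis ℝ W with hb
  obtain ⟨P, ε, hε, hP1, hP2⟩ := multi (r := r) hτ hc hD hdis b (Finset.univ.toList)
  have hs : ∀ i, Tendsto (fun k => b.repr (t k) i) atTop (𝓝 0) := by
    intro i
    have h1 : Continuous (fun v : W => b.repr v i) :=
      (LinearMap.continuous_of_finiteDimensional (b.coord i))
    have h2 : Tendsto (fun k => b.repr (t k) i) atTop (𝓝 (b.repr 0 i)) := (h1.tendsto 0).comp ht
    simpa using h2
  refine ⟨fun k => P (fun i => b.repr (t k) i), hP1 _ hs, ?_⟩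
  have hev : ∀ᶠ k in atTop, ∀ i, |b.repr (t k) i| < ε := by
    rw [eventually_all]
    intro i
    have h1 := (hs i).abs
    rw [abs_zero] at h1
    exact h1.eventually (gt_mem_nhds hε)
  filter_upwards [hev] with k hk
  obtain ⟨h1, h2⟩ := hP2 _ hk
  refine ⟨fun v => ?_, h2⟩
  rw [h1, Finset.sum_map_toList, b.sum_repr]

/-- If the return map `Φ` of a periodic torus can be closed at `v` by small translations, then `F` can
be closed at `τ v`. -/
theorem closable_transl [FiniteDimensional ℝ W] (hτ : IsTorus n N Λ τ)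
    (hΛ : ∀ v : W, ∃ u ∈ Λ, ‖v - u‖ ≤ 1) (F : DiffM n N r) {p : ℕ} {Φ : W → W}
    (hF : IsReturn F τ p Φ) (v : W)
    (h : ∀ ε : ℝ, 0 < ε → ∃ u w : W, ‖u‖ < ε ∧ ‖w‖ < ε ∧
      ∃ k : ℕ, 1 ≤ k ∧ (fun x => Φ (x - w) + u)^[k] v - v ∈ Λ) : ClosableAt n N r F (τ v) := by
  classical
  have : ProperSpace W := FiniteDimensional.proper ℝ W
  have hc : IsCompact (range τ) := by
    have h1 : range τ = τ '' closedBall 0 1 := by
      apply Subset.antisymm
      · rintro _ ⟨x, rfl⟩
        obtain ⟨u, hu, hu1⟩ := hΛ x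
        refine ⟨x - u, by rwa [mem_closedBall_zero_iff], ?_⟩
        rw [← hτ.per _ u hu, sub_add_cancel]
      · rintro _ ⟨x, -, rfl⟩
        exact ⟨x, rfl⟩
    rw [h1]
    exact (isCompact_closedBall 0 1).image hτ.cont
  have hFc : ∀ i : ℕ, Continuous (F^[i]) := fun i => F.continuous.iterate i
  obtain ⟨D, hDd⟩ : ∃ D : Set N, D = ⋃ i ∈ Finset.Ico 1 p, F^[i] '' (range τ) := ⟨_, rfl⟩
  have hD : IsClosed D := by
    rw [hDd]
    exact isClosed_biUnion_finset fun i _ => (hc.image (hFc i)).isClosed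
  have hDmem : ∀ i, 1 ≤ i → i < p → ∀ x, F^[i] (τ x) ∈ D := by
    intro i h1 h2 x
    rw [hDd]
    simp only [mem_iUnion, Finset.mem_Ico]
    exact ⟨i, ⟨h1, h2⟩, _, ⟨x, rfl⟩, rfl⟩
  have hdis : Disjoint D (range τ) := by
    rw [Set.disjoint_left]
    rintro _ hw1 ⟨w, rfl⟩
    rw [hDd] at hw1
    simp only [mem_iUnion, Finset.mem_Ico] at hw1
    obtain ⟨i, ⟨hi1, hi2⟩, _, ⟨x, rfl⟩, hx⟩ := hw1
    exact hF.dis i hi1 hi2 x w hx
  choose u w hu hw q hq hper using fun k : ℕ => h (1 / ((k : ℝ) + 1)) (by positivity)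
  have hz : Tendsto (fun k : ℕ => 1 / ((k : ℝ) + 1)) atTop (𝓝 0) :=
    tendsto_one_div_add_atTop_nhds_zero_nat
  have hu0 : Tendsto u atTop (𝓝 0) := by
    rw [tendsto_zero_iff_norm_tendsto_zero]
    exact squeeze_zero (fun k => norm_nonneg _) (fun k => (hu k).le) hz
  have hw0 : Tendsto w atTop (𝓝 0) := by
    rw [tendsto_zero_iff_norm_tendsto_zero]
    exact squeeze_zero (fun k => norm_nonneg _) (fun k => (hw k).le) hz
  have ht0 : Tendsto (fun k => u k - w k) atTop (𝓝 0) := by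
    have := hu0.sub hw0
    rwa [sub_zero] at this
  obtain ⟨P, hP1, hP2⟩ := transl (r := r) hτ hc hD hdis _ ht0
  have hG : Cv (fun k => (P k).trans F) F := by
    have h1 := Cv.trans Pool.Agent.W917.SC.comp hP1 (Cv.const F)
    have e0 : (Diffeomorph.refl (𝓡 n) N r).trans F = F := by
      ext y
      rfl
    rwa [e0] at h1
  refine closable_of_seq F (τ v) _ hG (fun k => τ (v - u k)) ?_ ?_
  · have h1 : Tendsto (fun k => v - u k) atTop (𝓝 v) := by
      have := (tendsto_const_nhds (x := v)).sub hu0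
      rwa [sub_zero] at this
    exact (hτ.cont.tendsto v).comp h1
  · filter_upwards [hP2] with k hk
    obtain ⟨hk1, hk2⟩ := hk
    have hi : ∀ (x : W) (i : ℕ), 1 ≤ i → i ≤ p →
        ((P k).trans F)^[i] (τ x) = F^[i] (τ (x + (u k - w k))) := by
      intro x i hi1
      induction i with
      | zero => omega
      | succ i ih =>
        intro hip
        rcases Nat.eq_zero_or_pos i with h0 | h0
        · subst h0
          show F (P k (τ x)) = F (τ (x + (u k - w k)))
          rw [hk1]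
        · rw [Function.iterate_succ_apply', ih h0 (by omega), Function.iterate_succ_apply' F]
          show F (P k (F^[i] (τ (x + (u k - w k))))) = _
          rw [hk2 _ (hDmem i h0 (by omega) _)]
    have hret : ∀ x : W, ((P k).trans F)^[p] (τ x) = τ (Φ (x + (u k - w k))) := by
      intro x
      rw [hi x p hF.pos le_rfl, hF.ret]
    have hit : ∀ j : ℕ, ((P k).trans F)^[p * j] (τ (v - u k)) =
        τ ((fun x => Φ (x - w k) + u k)^[j] v - u k) := by
      intro j
      induction j with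
      | zero => rfl
      | succ j ih =>
        rw [Nat.mul_succ, add_comm, Function.iterate_add_apply, ih, hret,
          Function.iterate_succ_apply']
        congr 1
        rw [sub_add_sub_cancel, add_sub_cancel_right]
    refine ⟨p * q k, Nat.mul_pos hF.pos (hq k), ?_⟩
    rw [hit]
    have h1 := hτ.per (v - u k) _ (hper k)
    rw [← h1]
    congr 1
    abel

end Pool.Agent.V11260.PT
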