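import Mathlib
import Pool.Agent.V11260.PT.Pert
import Pool.Agent.H922R3.CL.MixB
import Pool.Agent.H922R3.CL.Hyp
import Pool.Agent.H922R3.CL.Circ

/-!
# The closing lemma at limits of periodic embedded tori with tower dynamics
-/

set_option autoImplicit false
set_option linter.unusedSectionVars false

open scoped Manifold ContDiff Topology NNReal
open Filter Set Metric

universe u

namespace Pool.Agent.V11260.PT

open Pool.Agent.H718R2.G Pool.Agent.W564.SC Pool.Agent.TH382.QC Pool.Agent.TH80.CLX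
  Pool.Agent.TH382.HS

variable {n : ℕ} {N : Type u} [TopologicalSpace N] [T2Space N] [CompactSpace N]
  [ChartedSpace (V n) N] [IsManifold (𝓡 n) ∞ N] {r : ℕ∞}

open Pool.Agent.H922R3.CL in
theorem closable_mixed (F : DiffM n N r) (y : N) (h : OnMixedTorus n N F y) :
    ClosableAt n N r F y := by
  obtain ⟨d, l, s, e, m, H, Φ, τ, p, v, hH, hΦ, hv, hτ, hF, rfl⟩ := h
  refine closable_transl hτ ?_ F hF v ?_
  · exact B.ZB_near (ZV_near d l s)
  · intro ε hε
    obtain ⟨u, w, G, hu, hw, hG, -, -, hper⟩ :=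
      B.main (ZV_near d l s) (B.mixed_clos hH) hΦ v hv (k := 0) (by simp) hε
    have e1 : (fun x => Φ (x - w) + u) = G := by
      funext x
      exact (hG x).symm
    obtain ⟨k, hk, hk2⟩ := hper
    refine ⟨u, w, hu, hw, k, hk, ?_⟩
    rw [e1]
    exact hk2

open Pool.Agent.H922R3.CL in
theorem closable_shadow (F : DiffM n N r) (y : N) (h : OnShadowTorus n N F y) :
    ClosableAt n N r F y := by
  obtain ⟨d, e, m, H, Φ, τ, p, v, hH, hΦ, hv, hτ, hF, rfl⟩ := h
  refine closable_transl hτ ?_ F hF v ?_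
  · exact ZV_near d e m
  · intro ε hε
    obtain ⟨u, w, G, hu, hw, hG, -, -, hper⟩ :=
      Pool.Agent.H922R3.CL.main (hH.elim (perShadow_of_conj (Zn_near d)) id) hΦ v hv (k := 0)
        (by simp) hε
    have e1 : (fun x => Φ (x - w) + u) = G := by
      funext x
      exact (hG x).symm
    obtain ⟨k, hk, hk2⟩ := hper
    refine ⟨u, w, hu, hw, k, hk, ?_⟩
    rw [e1]
    exact hk2

theorem main (F : DiffM n N r) (z : N)
    (h : ∀ U : Set (DiffM n N r), IsOpen[strongTop n N r] U → F ∈ U →
      ∃ F' ∈ U, z ∈ closure {y | OnMixedTorus n N F' y ∨ OnShadowTorus n N F' y}) :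
    ClosableAt n N r F z := by
  apply closable_of_limit
  intro U hU hFU
  obtain ⟨F', hF', hz⟩ := h U hU hFU
  exact ⟨F', hF', closure_mono (fun y hy => hy.elim (closable_mixed F' y) (closable_shadow F' y)) hz⟩

end Pool.Agent.V11260.PT
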